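import Pool.Agent.Q124.WV.Fin

/-!
# Asymptotics of the higher twist numbers of weaving knots

`weaving n m` is the standard diagram of the weaving link `W(n + 1, m)`: the closure of the braid
`(σ_0 σ_1⁻¹ σ_2 ⋯ σ_{n-1}^{±1})^m` on `n + 1` strands (`Pool.Agent.Q124.WV.closedBraid`).
`fPoly` (starting library `Pool.Agent.H891R2.Jones.Diagram`) is the normalised Kauffman bracket
`(-A⁻³)^{writhe} ⟨D⟩`, i.e. the Jones polynomial with `t = A⁻⁴`, and `twistNumber k` is
`T_k = |λ_{l+k}| + |λ_{h-k}|`.  With `d = n % 2` and `r = n / 2` the theorem says that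
`T_k(W(n + 1, m))` is asymptotic to `((r + d)^k + r^k) m^k / k!` for `m → ∞`, for all `n ≥ 2`, `k ≥ 1`.
-/

set_option autoImplicit false

namespace Pool.Agent.Results.MP_592c03_gt.TwistAsymptotics

open Filter Topology Pool.Agent.H891R2.Jones Pool.Agent.Q124.WV

theorem result (n : ℕ) (hn : 2 ≤ n) (k : ℕ) (hk : 1 ≤ k) :
    Tendsto (fun m : ℕ => (twistNumber k (weaving n m).fPoly : ℝ) /
      ((((n / 2 + n % 2 : ℕ) : ℝ) ^ k + ((n / 2 : ℕ) : ℝ) ^ k) * (m : ℝ) ^ k / k.factorial))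
      atTop (𝓝 1) :=
  main n hn k hk

end Pool.Agent.Results.MP_592c03_gt.TwistAsymptotics
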